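import Pool.Agent.Q83.FF.Stm

set_option autoImplicit false

/-!
# Job FF-SUBGEN

Subadditivity of the sum of the largest roots, generic case.
-/

namespace Pool.Agent.Q234.FF.SUBGEN

open Pool.Agent.Q83.FF Polynomial Finset Filter Topology

theorem card_top {d : ℕ} (k : ℕ) (hk : k < d) :
    (univ.filter (fun i : Fin d => k ≤ i.val)).card = d - k := by
  have : univ.filter (fun i : Fin d => k ≤ i.val) = Finset.Ici (⟨k, hk⟩ : Fin d) := by
    ext i
    simp [Fin.le_def]
  rw [this, Fin.card_Ici]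

/-- The sum over the top indices dominates. -/
theorem sum_le_top {d : ℕ} (k : ℕ) (hk : k < d) (c : Fin d → ℝ) (hc : Monotone c)
    (S : Finset (Fin d)) (hS : S.card = d - k) :
    ∑ i ∈ S, c i ≤ ∑ i ∈ univ.filter (fun i : Fin d => k ≤ i.val), c i := by
  have hcard := card_top k hk
  have h1 : ∑ i ∈ S, (c i - c ⟨k, hk⟩) ≤ ∑ i ∈ S, max (c i - c ⟨k, hk⟩) 0 :=
    Finset.sum_le_sum fun i _ => le_max_left _ _
  have h2 : ∑ i ∈ S, max (c i - c ⟨k, hk⟩) 0 ≤ ∑ i, max (c i - c ⟨k, hk⟩) 0 :=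
    Finset.sum_le_sum_of_subset_of_nonneg (Finset.subset_univ _) fun i _ _ => le_max_right _ _
  have h3 : ∑ i, max (c i - c ⟨k, hk⟩) 0 =
      ∑ i ∈ univ.filter (fun i : Fin d => k ≤ i.val), (c i - c ⟨k, hk⟩) := by
    rw [Finset.sum_filter]
    refine Finset.sum_congr rfl fun i _ => ?_
    split_ifs with h
    · exact max_eq_left (sub_nonneg.2 (hc (by exact h)))
    · exact max_eq_right (sub_nonpos.2 (hc (by exact (not_le.1 h).le)))
  have h4 : ∑ i ∈ S, (c i - c ⟨k, hk⟩) ≤
      ∑ i ∈ univ.filter (fun i : Fin d => k ≤ i.val), (c i - c ⟨k, hk⟩) := by linarith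
  rw [Finset.sum_sub_distrib, Finset.sum_sub_distrib, Finset.sum_const, Finset.sum_const, hS,
    hcard] at h4
  linarith

attribute [local irreducible] Om

theorem Om_cont (h_om2 : S_om2) {d : ℕ} (x y : ℝ → Fin d → ℝ) (hx : Continuous x)
    (hy : Continuous y) (S : Finset (Fin d)) :
    Continuous fun t : ℝ => ∑ i ∈ S, Om (x t) (y t) i := by
  have h2 : Continuous fun t : ℝ => Om (x t) (y t) := (h_om2 d).comp (hx.prodMk hy)
  have h3 : ∀ i : Fin d, Continuous fun t : ℝ => Om (x t) (y t) i := fun i =>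
    (continuous_pi_iff.1 h2) i
  exact continuous_finsetSum _ fun i _ => h3 i

/-- The factor belonging to the set `S`. -/
noncomputable def phi {d : ℕ} (a a' b b' : Fin d → ℝ) (m1 m2 : ℝ) (S : Finset (Fin d)) (t : ℝ) : ℝ :=
  m1 + t * (m2 - m1) - ∑ i ∈ S, Om (a + t • (a' - a)) (b + t • (b' - b)) i

theorem phi_cont (h_om2 : S_om2) {d : ℕ} (a a' b b' : Fin d → ℝ) (m1 m2 : ℝ)
    (S : Finset (Fin d)) : Continuous (phi a a' b b' m1 m2 S) := by
  have h1 := Om_cont h_om2 (fun t => a + t • (a' - a)) (fun t => b + t • (b' - b))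
    (continuous_const.add (continuous_id.smul continuous_const))
    (continuous_const.add (continuous_id.smul continuous_const)) S
  have h2 : Continuous fun t : ℝ => m1 + t * (m2 - m1) :=
    continuous_const.add (continuous_id.mul continuous_const)
  exact h2.sub h1

/-- behaviour at `+∞` -/
theorem phi_pos (h_om2 : S_om2) (h_om3 : S_om3) {d : ℕ} (a a' b b' : Fin d → ℝ) (m1 m2 : ℝ)
    (S : Finset (Fin d)) (hv : m2 - m1 - ∑ i ∈ S, Om (a' - a) (b' - b) i < 0) :
    ∃ t, 1 < t ∧ phi a a' b b' m1 m2 S t < 0 := by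
  have hc : Continuous fun s : ℝ => s * m1 + (m2 - m1) -
      ∑ i ∈ S, Om (s • a + (a' - a)) (s • b + (b' - b)) i := by
    have h1 := Om_cont h_om2 (fun s => s • a + (a' - a)) (fun s => s • b + (b' - b))
      ((continuous_id.smul continuous_const).add continuous_const)
      ((continuous_id.smul continuous_const).add continuous_const) S
    have h2 : Continuous fun s : ℝ => s * m1 + (m2 - m1) :=
      (continuous_id.mul continuous_const).add continuous_const
    exact h2.sub h1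
  have h0 : (fun s : ℝ => s * m1 + (m2 - m1) -
      ∑ i ∈ S, Om (s • a + (a' - a)) (s • b + (b' - b)) i) 0 < 0 := by
    simpa using hv
  have h1 : ∀ᶠ s in 𝓝 (0 : ℝ), (fun s : ℝ => s * m1 + (m2 - m1) -
      ∑ i ∈ S, Om (s • a + (a' - a)) (s • b + (b' - b)) i) s < 0 :=
    hc.continuousAt.eventually_lt continuousAt_const h0
  have h2 : ∀ᶠ s in 𝓝[>] (0 : ℝ), s < 1 :=
    (nhdsWithin_le_nhds (a := (0 : ℝ)) (s := Set.Ioi 0)) (Iio_mem_nhds (by norm_num))
  have h3 : ∀ᶠ s in 𝓝[>] (0 : ℝ), 0 < s := self_mem_nhdsWithin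
  obtain ⟨s, ⟨hs1, hs2⟩, hs3⟩ := ((h1.filter_mono nhdsWithin_le_nhds).and h2).and h3 |>.exists
  refine ⟨s⁻¹, (one_lt_inv₀ hs3).2 hs2, ?_⟩
  have hs4 : 0 < s⁻¹ := inv_pos.2 hs3
  have e1 : a + s⁻¹ • (a' - a) = s⁻¹ • (s • a + (a' - a)) := by
    rw [smul_add, smul_smul, inv_mul_cancel₀ hs3.ne', one_smul]
  have e2 : b + s⁻¹ • (b' - b) = s⁻¹ • (s • b + (b' - b)) := by
    rw [smul_add, smul_smul, inv_mul_cancel₀ hs3.ne', one_smul]
  have e3 : phi a a' b b' m1 m2 S s⁻¹ = s⁻¹ * (s * m1 + (m2 - m1) -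
      ∑ i ∈ S, Om (s • a + (a' - a)) (s • b + (b' - b)) i) := by
    unfold phi
    have e4 : s⁻¹ * s = 1 := inv_mul_cancel₀ hs3.ne'
    rw [e1, e2, h_om3.1 d _ _ _ hs4.le]
    simp only [Pi.smul_apply, smul_eq_mul]
    rw [← Finset.mul_sum]
    linear_combination (-m1) * e4
  rw [e3]
  exact mul_neg_of_pos_of_neg hs4 hs1

/-- behaviour at `-∞` -/
theorem phi_neg (h_om2 : S_om2) (h_om3 : S_om3) {d : ℕ} (a a' b b' : Fin d → ℝ) (m1 m2 : ℝ)
    (S : Finset (Fin d)) (hv : 0 < m2 - m1 - ∑ i ∈ S, Om (a' - a) (b' - b) i) :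
    ∃ t, t < 0 ∧ phi a a' b b' m1 m2 (S.map Fin.revPerm.toEmbedding) t < 0 := by
  set R := S.map Fin.revPerm.toEmbedding with hR
  have hc : Continuous fun s : ℝ => s * m1 - (m2 - m1) -
      ∑ i ∈ R, Om (s • a + -(a' - a)) (s • b + -(b' - b)) i := by
    have h1 := Om_cont h_om2 (fun s => s • a + -(a' - a)) (fun s => s • b + -(b' - b))
      ((continuous_id.smul continuous_const).add continuous_const)
      ((continuous_id.smul continuous_const).add continuous_const) R
    have h2 : Continuous fun s : ℝ => s * m1 - (m2 - m1) :=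
      (continuous_id.mul continuous_const).sub continuous_const
    exact h2.sub h1
  have h0 : (fun s : ℝ => s * m1 - (m2 - m1) -
      ∑ i ∈ R, Om (s • a + -(a' - a)) (s • b + -(b' - b)) i) 0 < 0 := by
    have e : ∑ i ∈ R, Om (-(a' - a)) (-(b' - b)) i = - ∑ i ∈ S, Om (a' - a) (b' - b) i := by
      rw [hR, Finset.sum_map, ← Finset.sum_neg_distrib]
      refine Finset.sum_congr rfl fun i _ => ?_
      rw [h_om3.2.1 d (a' - a) (b' - b)]
      simp
    simp only [zero_mul, zero_smul, zero_add, e]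
    linarith
  have h1 : ∀ᶠ s in 𝓝 (0 : ℝ), (fun s : ℝ => s * m1 - (m2 - m1) -
      ∑ i ∈ R, Om (s • a + -(a' - a)) (s • b + -(b' - b)) i) s < 0 :=
    hc.continuousAt.eventually_lt continuousAt_const h0
  have h3 : ∀ᶠ s in 𝓝[>] (0 : ℝ), 0 < s := self_mem_nhdsWithin
  obtain ⟨s, hs1, hs3⟩ := ((h1.filter_mono nhdsWithin_le_nhds).and h3).exists
  have hs4 : 0 < s⁻¹ := inv_pos.2 hs3
  refine ⟨-s⁻¹, neg_lt_zero.2 hs4, ?_⟩
  have e1 : a + (-s⁻¹) • (a' - a) = s⁻¹ • (s • a + -(a' - a)) := by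
    rw [smul_add, smul_smul, inv_mul_cancel₀ hs3.ne', one_smul, smul_neg, neg_smul]
  have e2 : b + (-s⁻¹) • (b' - b) = s⁻¹ • (s • b + -(b' - b)) := by
    rw [smul_add, smul_smul, inv_mul_cancel₀ hs3.ne', one_smul, smul_neg, neg_smul]
  have e3 : phi a a' b b' m1 m2 R (-s⁻¹) = s⁻¹ * (s * m1 - (m2 - m1) -
      ∑ i ∈ R, Om (s • a + -(a' - a)) (s • b + -(b' - b)) i) := by
    unfold phi
    have e4 : s⁻¹ * s = 1 := inv_mul_cancel₀ hs3.ne'
    rw [e1, e2, h_om3.1 d _ _ _ hs4.le]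
    simp only [Pi.smul_apply, smul_eq_mul]
    rw [← Finset.mul_sum]
    linear_combination (-m1) * e4
  rw [e3]
  exact mul_neg_of_pos_of_neg hs4 hs1

theorem t_subgen (h_om1 : S_om1) (h_om2 : S_om2) (h_om3 : S_om3) (h_prodpoly : S_prodpoly)
    (h_coinc : S_coinc) (h_lines : S_lines) (h_abs : S_abs) : S_subgen := by
  intro d k n a b a' b' hn hgen
  by_cases hk : d ≤ k
  · have he : univ.filter (fun i : Fin d => k ≤ i.val) = ∅ := by
      ext i
      have := i.2
      simp only [mem_filter, mem_univ, true_and, notMem_empty, iff_false]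
      omega
    rw [he]; simp
  rw [not_le] at hk
  by_contra hcon
  rw [not_le] at hcon
  set top := univ.filter (fun i : Fin d => k ≤ i.val) with htop
  have hcardtop : top.card = n := by rw [htop, card_top k hk, hn]
  set Fw := ∑ i ∈ top, Om a b i with hFw
  set Fw' := ∑ i ∈ top, Om a' b' i with hFw'
  set Fs := ∑ i ∈ top, Om (a + a') (b + b') i with hFs
  set e := (Fs - Fw - Fw') / 3 with he
  have he0 : 0 < e := by rw [he]; linarith
  have hle : ∀ (x y : Fin d → ℝ) (S : Finset (Fin d)), S.card = n →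
      ∑ i ∈ S, Om x y i ≤ ∑ i ∈ top, Om x y i := fun x y S hS =>
    sum_le_top k hk (Om x y) (h_om1 d x y).1 S (by rw [hS, hn])
  have hZ := h_coinc d n a (a' - a) b (b' - b) hgen
  -- the lines
  let g : ℝ → Fin d → ℝ := fun t => Om (a + t • (a' - a)) (b + t • (b' - b))
  let T : Finset (ℝ × ℝ × ℝ) :=
    (hZ.toFinset ×ˢ powersetCard n (univ : Finset (Fin d))).image
      (fun z => (1 - z.1, z.1, ∑ i ∈ z.2, g z.1 i)) ∪
    (powersetCard n (univ : Finset (Fin d))).image
      (fun S => (-1, 1, ∑ i ∈ S, Om (a' - a) (b' - b) i))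
  have hT : ∀ z ∈ T, z.1 ≠ 0 ∨ z.2.1 ≠ 0 := by
    intro z hz
    rcases Finset.mem_union.1 hz with h | h
    · obtain ⟨w, -, rfl⟩ := Finset.mem_image.1 h
      by_cases h0 : w.1 = 0
      · left
        simp [h0]
      · exact Or.inr h0
    · obtain ⟨w, -, rfl⟩ := Finset.mem_image.1 h
      right
      simp
  obtain ⟨m1, m2, hm1, hm2, hm⟩ := h_lines T hT (Fw + e) (Fw' + e) (e / 3) (by positivity)
  have hm1' := abs_lt.1 hm1
  have hm2' := abs_lt.1 hm2
  have hmZ : ∀ t ∈ hZ.toFinset, ∀ S ∈ powersetCard n (univ : Finset (Fin d)),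
      (1 - t) * m1 + t * m2 ≠ ∑ i ∈ S, g t i := by
    intro t ht S hS
    exact hm (1 - t, t, ∑ i ∈ S, g t i) (Finset.mem_union_left _ (Finset.mem_image.2
      ⟨(t, S), Finset.mem_product.2 ⟨ht, hS⟩, rfl⟩))
  have hmv : ∀ S ∈ powersetCard n (univ : Finset (Fin d)),
      m2 - m1 - ∑ i ∈ S, Om (a' - a) (b' - b) i ≠ 0 := by
    intro S hS h
    refine hm (-1, 1, ∑ i ∈ S, Om (a' - a) (b' - b) i) (Finset.mem_union_right _
      (Finset.mem_image.2 ⟨S, hS, rfl⟩)) ?_
    simp only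
    linarith
  obtain ⟨f, hfd, hf⟩ := h_prodpoly d n a (a' - a) b (b' - b) m1 (m2 - m1)
  -- the index type
  have hmem : ∀ S : {S : Finset (Fin d) // S ∈ powersetCard n (univ : Finset (Fin d))},
      S.1.card = n := fun S => (Finset.mem_powersetCard.1 S.2).2
  have htopmem : top ∈ powersetCard n (univ : Finset (Fin d)) :=
    Finset.mem_powersetCard.2 ⟨Finset.subset_univ _, hcardtop⟩
  have hcard : Fintype.card {S : Finset (Fin d) // S ∈ powersetCard n (univ : Finset (Fin d))} =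
      d.choose n := by
    rw [Fintype.card_coe, Finset.card_powersetCard, Finset.card_univ, Fintype.card_fin]
  let R : {S : Finset (Fin d) // S ∈ powersetCard n (univ : Finset (Fin d))} →
      {S : Finset (Fin d) // S ∈ powersetCard n (univ : Finset (Fin d))} := fun S =>
    ⟨S.1.map Fin.revPerm.toEmbedding, Finset.mem_powersetCard.2 ⟨Finset.subset_univ _, by
      rw [Finset.card_map]; exact hmem S⟩⟩
  have hRinj : Function.Injective R := by
    intro S S' h
    have h1 : S.1.map Fin.revPerm.toEmbedding = S'.1.map Fin.revPerm.toEmbedding :=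
      congrArg Subtype.val h
    exact Subtype.ext (Finset.map_injective _ h1)
  let v : {S : Finset (Fin d) // S ∈ powersetCard n (univ : Finset (Fin d))} → ℝ := fun S =>
    m2 - m1 - ∑ i ∈ S.1, Om (a' - a) (b' - b) i
  refine h_abs {S : Finset (Fin d) // S ∈ powersetCard n (univ : Finset (Fin d))} f
    (fun S => phi a a' b b' m1 m2 S.1) (fun S => phi_cont h_om2 a a' b b' m1 m2 S.1) ?_ ?_ ?_ ?_ ?_
    ⟨top, htopmem⟩ ?_ (univ.filter fun S => v S < 0) ((univ.filter fun S => 0 < v S).image R)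
    ?_ ?_ ?_
  · intro t
    rw [hf t]
    exact (Finset.prod_coe_sort (powersetCard n (univ : Finset (Fin d)))
      (fun S => phi a a' b b' m1 m2 S t)).symm
  · rw [hcard]; exact hfd
  · intro t S S' h h'
    by_contra hne
    have hne' : S.1 ≠ S'.1 := fun h => hne (Subtype.ext h)
    have h1 : ∑ i ∈ S.1, g t i = m1 + t * (m2 - m1) := by
      have : phi a a' b b' m1 m2 S.1 t = 0 := h
      unfold phi at this
      linarith
    have h2 : ∑ i ∈ S'.1, g t i = m1 + t * (m2 - m1) := by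
      have : phi a a' b b' m1 m2 S'.1 t = 0 := h'
      unfold phi at this
      linarith
    have h3 : t ∈ hZ.toFinset := by
      rw [Set.Finite.mem_toFinset]
      exact ⟨S.1, S'.1, hmem S, hmem S', hne', h1.trans h2.symm⟩
    apply hmZ t h3 S.1 S.2
    rw [h1]
    ring
  · intro S
    have h1 := hle a b S.1 (hmem S)
    have h2 : phi a a' b b' m1 m2 S.1 0 = m1 - ∑ i ∈ S.1, Om a b i := by
      unfold phi
      simp
    show 0 < phi a a' b b' m1 m2 S.1 0
    rw [h2]
    linarith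
  · intro S
    have h1 := hle a' b' S.1 (hmem S)
    have h2 : phi a a' b b' m1 m2 S.1 1 = m2 - ∑ i ∈ S.1, Om a' b' i := by
      unfold phi
      simp
    show 0 < phi a a' b b' m1 m2 S.1 1
    rw [h2]
    linarith
  · have h1 : a + (1 / 2 : ℝ) • (a' - a) = (1 / 2 : ℝ) • (a + a') := by
      ext i
      simp only [Pi.add_apply, Pi.smul_apply, Pi.sub_apply, smul_eq_mul]
      ring
    have h2 : b + (1 / 2 : ℝ) • (b' - b) = (1 / 2 : ℝ) • (b + b') := by
      ext i
      simp only [Pi.add_apply, Pi.smul_apply, Pi.sub_apply, smul_eq_mul]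
      ring
    have h3 : phi a a' b b' m1 m2 top (1 / 2) = (m1 + m2 - Fs) / 2 := by
      unfold phi
      rw [h1, h2, h_om3.1 d _ _ _ (by norm_num)]
      simp only [Pi.smul_apply, smul_eq_mul]
      rw [← Finset.mul_sum]
      ring
    show phi a a' b b' m1 m2 top (1 / 2) < 0
    rw [h3]
    have : Fs = Fw + Fw' + 3 * e := by rw [he]; ring
    rw [this]
    linarith
  · intro S hS
    exact phi_pos h_om2 h_om3 a a' b b' m1 m2 S.1 (Finset.mem_filter.1 hS).2
  · intro S hS
    obtain ⟨S', hS', rfl⟩ := Finset.mem_image.1 hS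
    exact phi_neg h_om2 h_om3 a a' b b' m1 m2 S'.1 (Finset.mem_filter.1 hS').2
  · rw [Finset.card_image_of_injective _ hRinj, ← Finset.card_union_of_disjoint]
    · rw [← Finset.card_univ]
      refine Finset.card_le_card fun S _ => ?_
      rcases lt_or_gt_of_ne (hmv S.1 S.2) with h | h
      · exact Finset.mem_union_left _ (Finset.mem_filter.2 ⟨Finset.mem_univ _, h⟩)
      · exact Finset.mem_union_right _ (Finset.mem_filter.2 ⟨Finset.mem_univ _, h⟩)
    · rw [Finset.disjoint_left]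
      intro S h1 h2
      have h1' := (Finset.mem_filter.1 h1).2
      have h2' := (Finset.mem_filter.1 h2).2
      linarith

end Pool.Agent.Q234.FF.SUBGEN
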